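import Pool.Agent.T2H61.Ohf.Red

/-!
# Optimal colouring of odd-hole-free graphs is NP-hard

Take an instance of exact cover by 3-sets, with triples `t` and elements `x`, and the graph `H` of
the well-known reduction to partition into triangles: every triple has nine own vertices `(t, c, j)`,
where `c` is one of its three components and `j < 3`; the three vertices `(t, c, ·)` form a triangle,
so do the three vertices `(t, ·, 2)`, and the `c`-th component of `t` is adjacent to `(t, c, 0)` and
`(t, c, 1)`. The graph `H` has no clique of size 4, no induced cycle of length 5 and no vertex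
adjacent to all four vertices of an induced path; so its complement `G` has no odd hole and no four
pairwise non-adjacent vertices. The colour classes of `G` are cliques of `H`, so `G` can be coloured
with `|V(G)| / 3` colours if and only if `H` can be partitioned into triangles, that is, if and only if
there is an exact cover.
-/

set_option autoImplicit false

namespace Pool.Agent.Results.MP_27b024_lc.ColouringNPHard

open Pool.Agent.NPC Pool.Agent.H692R2

/-- The graph is odd-hole-free: it has no induced cycle of odd length at least `4`. -/
def OddHoleFree {V : Type} (G : SimpleGraph V) : Prop :=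
  ∀ n : ℕ, Odd n → 4 ≤ n → IsEmpty (SimpleGraph.cycleGraph n ↪g G)

/-- There are no four pairwise non-adjacent vertices. -/
def NoFourIndependent {V : Type} (G : SimpleGraph V) : Prop :=
  ∀ a b c d, a ≠ b → a ≠ c → a ≠ d → b ≠ c → b ≠ d → c ≠ d →
    G.Adj a b ∨ G.Adj a c ∨ G.Adj a d ∨ G.Adj b c ∨ G.Adj b d ∨ G.Adj c d

/-- The function `A` on bit strings colours the odd-hole-free graphs optimally: on the code (of the
adjacency matrix) of such a graph with vertices `0, …, n-1` it gives the code of the list
`[c 0, …, c (n-1)]` of the colours of the vertices, for some proper colouring `c` in which exactly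
`χ(G)` colours occur. Nothing is assumed about its values on other inputs. -/
def ColoursOptimally (A : List Bool → List Bool) : Prop :=
  ∀ G : FinGraph, OddHoleFree G.graph → ∃ c : Fin G.n → ℕ,
    A (bits G) = bits (List.ofFn c) ∧ (∀ u v, G.graph.Adj u v → c u ≠ c v) ∧
      (((Finset.univ.image c).card : ℕ) : ℕ∞) = G.graph.chromaticNumber

/-- The number of vertices and the length of the code of a graph are polynomially related. -/
theorem length_bits : ∃ p : Polynomial ℕ, ∀ G : FinGraph,
    G.n ≤ (bits G).length ∧ (bits G).length ≤ p.eval G.n := by
  refine ⟨Polynomial.X * (4 * Polynomial.X + 1 + 1) + 1, fun G => ?_⟩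
  have h0 : (bits G).length = sz G.matrix := rfl
  have hlen : G.matrix.length = G.n := by simp [FinGraph.matrix]
  rw [h0]
  constructor
  · have : ∀ l : List (List Bool), l.length ≤ sz l := by
      intro l
      induction l with
      | nil => simp
      | cons a l ih =>
        rw [sz_list_cons, List.length_cons]
        omega
    have h := this G.matrix
    rwa [hlen] at h
  · refine (sz_le_length_mul G.matrix (4 * G.n + 1) fun x hx => ?_).trans (by
      rw [hlen]
      simp only [Polynomial.eval_add, Polynomial.eval_mul, Polynomial.eval_X, Polynomial.eval_one,
        Polynomial.eval_ofNat]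
      exact le_rfl)
    unfold FinGraph.matrix at hx
    rw [List.mem_ofFn] at hx
    obtain ⟨i, rfl⟩ := hx
    refine (sz_listBool_le _).trans ?_
    simp

/-- **Optimal colouring of odd-hole-free graphs is NP-hard.**

* Every decision problem `P` about pairs `(G, k)` which agrees with `k`-colourability on the
  odd-hole-free graphs is `NP`-hard, under polynomial-time many-one reductions; it is enough that
  it agrees with it when, in addition, `G` has no four pairwise non-adjacent vertices and `3 k` vertices.
* If there is a polynomial-time algorithm which gives an optimal colouring of every odd-hole-free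
  graph, then `P = NP`.
* Polynomial time may be measured in the number of the vertices. -/
theorem result :
    (∀ P : FinGraph × ℕ → Prop,
      (∀ (G : FinGraph) (k : ℕ), OddHoleFree G.graph → NoFourIndependent G.graph → G.n = 3 * k →
        (P (G, k) ↔ G.graph.Colorable k)) → NPHardP P) ∧
    ((∃ A : List Bool → List Bool, PolyTime A ∧ ColoursOptimally A) → ∀ L, InNP L → InP L) ∧
    (∃ p : Polynomial ℕ, ∀ G : FinGraph,
      G.n ≤ (bits G).length ∧ (bits G).length ≤ p.eval G.n) := by
  refine ⟨fun P hP => ?_, ?_, length_bits⟩
  · apply HardI.toNPHardP
    intro L hL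
    obtain ⟨f, hf, hpr, hLf⟩ := Pool.Agent.T2H61.Ohf.hardPr L hL
    refine ⟨f, hf, fun x => (hLf x).trans ?_⟩
    exact (hP (f x).1 (f x).2 (hpr x).1 (hpr x).2.1 (hpr x).2.2).symm
  · rintro ⟨A, hA, hopt⟩
    refine Pool.Agent.T2H61.Ohf.search hA fun p hp => ?_
    obtain ⟨c, h1, _, h2⟩ := hopt p.1 hp.1
    exact ⟨c, h1, h2⟩

end Pool.Agent.Results.MP_27b024_lc.ColouringNPHard
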